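import Pool.Agent.L0h51.LT.Cnt

/-!
# Selection of the multiplicity and of the sampling rate (part SEL of project LT)
-/

set_option autoImplicit false
set_option linter.all false
set_option maxHeartbeats 2000000

open Finset
open scoped Classical

namespace Pool.Agent.L0h51.LT

open Pool.Agent.L0h32.LT

theorem gam_ge {J E : ℕ} (hJ : 1 ≤ J) (hE : 1 ≤ E) (i : ℕ) : 2 * J ≤ gam J E i := by
  induction i with
  | zero => exact le_rfl
  | succ i ih =>
    have hg : 1 ≤ gam J E i := by omega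
    have h1 : 1 ≤ 2 * J * E := by
      have := Nat.mul_pos (Nat.mul_pos two_pos hJ) hE
      omega
    have h2 : 1 ≤ (gam J E i * 2 ^ (J + 2) * E) ^ J := Nat.one_le_pow _ _ (by positivity)
    calc 2 * J ≤ gam J E i := ih
      _ = 1 * gam J E i * 1 := by ring
      _ ≤ 2 * J * E * gam J E i * (gam J E i * 2 ^ (J + 2) * E) ^ J :=
        Nat.mul_le_mul (Nat.mul_le_mul_right _ h1) h2

theorem gam_succ_ge {J E : ℕ} (hJ : 1 ≤ J) (hE : 1 ≤ E) (i : ℕ) :
    gam J E i ≤ gam J E (i + 1) := by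
  have hg : 1 ≤ gam J E i := by
    have := gam_ge hJ hE i
    omega
  have h1 : 1 ≤ 2 * J * E := by
    have := Nat.mul_pos (Nat.mul_pos two_pos hJ) hE
    omega
  have h2 : 1 ≤ (gam J E i * 2 ^ (J + 2) * E) ^ J := Nat.one_le_pow _ _ (by positivity)
  calc gam J E i = 1 * gam J E i * 1 := by ring
    _ ≤ 2 * J * E * gam J E i * (gam J E i * 2 ^ (J + 2) * E) ^ J :=
      Nat.mul_le_mul (Nat.mul_le_mul_right _ h1) h2

theorem gam_mono {J E : ℕ} (hJ : 1 ≤ J) (hE : 1 ≤ E) : Monotone (gam J E) :=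
  monotone_nat_of_le_succ (gam_succ_ge hJ hE)

/-- The number of the sets of size `j`. -/
noncomputable def nu {n r : ℕ} (t : Fin n → Finset (Fin r)) (j : ℕ) : ℕ :=
  (univ.filter fun i => (t i).card = j).card

theorem exists_j {k E n r : ℕ} (hk : 1 ≤ k) (hE : 1 ≤ E) (hn : 0 < n)
    (t : Fin n → Finset (Fin r)) (hne : ∀ i, (t i).Nonempty) (hsum : ∑ i, (t i).card ≤ k * n) :
    ∃ j, 1 ≤ j ∧ j ≤ 2 * k ∧ n ≤ nu t j * gam (2 * k) E (2 * k - j) := by
  by_contra hcon
  push Not at hcon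
  have h1 : ∀ j ∈ Icc 1 (2 * k), nu t j * (2 * (2 * k)) ≤ n := by
    intro j hj
    rw [mem_Icc] at hj
    have h2 := hcon j hj.1 hj.2
    have h3 := gam_ge (J := 2 * k) (E := E) (by omega) hE (2 * k - j)
    exact (Nat.mul_le_mul_left _ h3).trans h2.le
  have h2 : (univ.filter fun i => (t i).card ≤ 2 * k).card = ∑ j ∈ Icc 1 (2 * k), nu t j := by
    rw [card_eq_sum_card_fiberwise (f := fun i => (t i).card) (t := Icc 1 (2 * k))]
    · refine sum_congr rfl fun j hj => ?_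
      rw [mem_Icc] at hj
      unfold nu
      congr 1
      ext i
      simp only [mem_filter, mem_univ, true_and]
      constructor
      · exact fun h => h.2
      · exact fun h => ⟨by omega, h⟩
    · intro i hi
      have hi' : (t i).card ≤ 2 * k := by simpa using hi
      have := (hne i).card_pos
      simp only [coe_Icc, Set.mem_Icc]
      exact ⟨this, hi'⟩
  have h3 : (univ.filter fun i => ¬ (t i).card ≤ 2 * k).card * (2 * k + 1) ≤ k * n := by
    refine le_trans ?_ hsum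
    rw [← smul_eq_mul, ← sum_const]
    refine (sum_le_sum fun i hi => ?_).trans
      (sum_le_sum_of_subset (f := fun i => (t i).card) (filter_subset _ _))
    have := (mem_filter.1 hi).2
    omega
  have h4 := card_filter_add_card_filter_not (s := (univ : Finset (Fin n)))
    (fun i => (t i).card ≤ 2 * k)
  rw [card_univ, Fintype.card_fin, h2] at h4
  have h5 : (∑ j ∈ Icc 1 (2 * k), nu t j) * (2 * (2 * k)) ≤ (2 * k) * n := by
    rw [sum_mul]
    refine (sum_le_sum h1).trans ?_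
    rw [sum_const, Nat.card_Icc, smul_eq_mul]
    exact le_of_eq (by rw [Nat.add_sub_cancel])
  generalize (∑ j ∈ Icc 1 (2 * k), nu t j) = a at *
  generalize (univ.filter fun i => ¬ (t i).card ≤ 2 * k).card = b at *
  have h6 : 2 * a ≤ n := by
    have : (2 * k) * (2 * a) ≤ (2 * k) * n := by
      calc (2 * k) * (2 * a) = a * (2 * (2 * k)) := by ring
        _ ≤ _ := h5
    exact Nat.le_of_mul_le_mul_left this (by omega)
  nlinarith

theorem t_SEL : S_SEL := by
  intro k E n r ℓ hk hE hn t hne hsum hℓ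
  obtain ⟨J, hJ⟩ : ∃ J : ℕ, J = 2 * k := ⟨_, rfl⟩
  obtain ⟨D, hD⟩ : ∃ D : ℕ, D = gam (2 * k) E (2 * k) := ⟨_, rfl⟩
  have hJ1 : 1 ≤ J := by omega
  have hD1 : 1 ≤ D := by
    have := gam_ge (J := 2 * k) (E := E) (by omega) hE (2 * k)
    omega
  have hn0 : 0 < n := by
    refine lt_of_lt_of_le ?_ hn
    rw [← hD]
    positivity
  have hex := exists_j hk hE hn0 t hne hsum
  obtain ⟨j, ⟨hj1, hjJ, hjn⟩, hjmin⟩ : ∃ j, (1 ≤ j ∧ j ≤ 2 * k ∧
      n ≤ nu t j * gam (2 * k) E (2 * k - j)) ∧ ∀ j' < j, ¬ (1 ≤ j' ∧ j' ≤ 2 * k ∧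
      n ≤ nu t j' * gam (2 * k) E (2 * k - j')) :=
    ⟨Nat.find hex, Nat.find_spec hex, fun j' h => Nat.find_min hex h⟩
  rw [← hJ] at hjJ hjn hjmin
  obtain ⟨g, hg⟩ : ∃ g : ℕ, g = gam J E (J - j) := ⟨_, rfl⟩
  obtain ⟨Q, hQ⟩ : ∃ Q : ℕ, Q = lab J E j := ⟨_, rfl⟩
  have hQg : Q = g * 2 ^ (J + 2) * E := by rw [hQ, lab, hg]
  have hg1 : 1 ≤ g := by
    have := gam_ge hJ1 hE (J - j)
    omega
  have hQ4 : 4 ≤ Q := by
    rw [hQg, pow_add]
    have h1 : 0 < g * 2 ^ J * E := Nat.mul_pos (Nat.mul_pos hg1 (by positivity)) hE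
    calc 4 = 1 * 4 := by norm_num
      _ ≤ (g * 2 ^ J * E) * 4 := Nat.mul_le_mul_right _ h1
      _ = _ := by ring
  have hG : gam J E (J - j + 1) = 2 * J * E * g * Q ^ J := by
    rw [hQg, hg]
    rfl
  have hGD : gam J E (J - j + 1) ≤ D := by
    rw [hD, ← hJ]
    exact gam_mono hJ1 hE (by omega)
  rw [← hg] at hjn
  obtain ⟨N, hN⟩ : ∃ N : ℕ, N = nu t j := ⟨_, rfl⟩
  rw [← hN] at hjn
  have hNn : N ≤ n := by
    rw [hN, nu]
    exact (card_le_univ _).trans (by rw [Fintype.card_fin])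
  -- real numbers
  have hQr : (4 : ℝ) ≤ Q := by exact_mod_cast hQ4
  have hQ0 : (0 : ℝ) < Q := by linarith
  have hEr : (1 : ℝ) ≤ E := by exact_mod_cast hE
  have hgr : (1 : ℝ) ≤ g := by exact_mod_cast hg1
  have hJr : (1 : ℝ) ≤ J := by exact_mod_cast hJ1
  have hnr : (0 : ℝ) < n := by exact_mod_cast hn0
  have hDr : (1 : ℝ) ≤ D := by exact_mod_cast hD1
  have hjnr : (n : ℝ) ≤ N * g := by exact_mod_cast hjn
  have hNnr : (N : ℝ) ≤ n := by exact_mod_cast hNn
  have hGDr : 2 * (J : ℝ) * E * g * (Q : ℝ) ^ J ≤ D := by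
    have := hG ▸ hGD
    exact_mod_cast this
  have hQj : (Q : ℝ) ^ j ≤ (Q : ℝ) ^ J := pow_le_pow_right₀ (by linarith) hjJ
  have hQj0 : (0 : ℝ) < (Q : ℝ) ^ j := by positivity
  -- the small and the large sets
  have hlow : ((univ.filter fun i => (t i).card < j).card : ℝ) ≤ N * (1 / Q) ^ j / (2 * E) := by
    have h1 : (univ.filter fun i => (t i).card < j).card = ∑ j' ∈ Icc 1 (j - 1), nu t j' := by
      rw [card_eq_sum_card_fiberwise (f := fun i => (t i).card) (t := Icc 1 (j - 1))]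
      · refine sum_congr rfl fun j' hj' => ?_
        rw [mem_Icc] at hj'
        unfold nu
        congr 1
        ext i
        simp only [mem_filter, mem_univ, true_and]
        constructor
        · exact fun h => h.2
        · exact fun h => ⟨by omega, h⟩
      · intro i hi
        have hi' : (t i).card < j := by simpa using hi
        have := (hne i).card_pos
        simp only [coe_Icc, Set.mem_Icc]
        exact ⟨this, by omega⟩
    have h2 : ∀ j' ∈ Icc 1 (j - 1), nu t j' * gam J E (J - j + 1) ≤ n := by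
      intro j' hj'
      rw [mem_Icc] at hj'
      have h3 : ¬ n ≤ nu t j' * gam J E (J - j') := fun h =>
        hjmin j' (by omega) ⟨hj'.1, by omega, h⟩
      exact (Nat.mul_le_mul_left _ (gam_mono hJ1 hE (by omega))).trans (not_le.1 h3).le
    have h4 : (univ.filter fun i => (t i).card < j).card * gam J E (J - j + 1) ≤ J * n := by
      rw [h1, sum_mul]
      refine (sum_le_sum h2).trans ?_
      rw [sum_const, Nat.card_Icc, smul_eq_mul]
      exact Nat.mul_le_mul_right _ (by omega)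
    rw [hG] at h4
    have h5 : ((univ.filter fun i => (t i).card < j).card : ℝ) *
        (2 * J * E * g * (Q : ℝ) ^ J) ≤ J * n := by exact_mod_cast h4
    generalize ((univ.filter fun i => (t i).card < j).card : ℝ) = c at h5 ⊢
    have hQJ0 : (0 : ℝ) < (Q : ℝ) ^ J := by positivity
    have h6 : c * (2 * J * E * g * (Q : ℝ) ^ J) ≤ J * (N * g) :=
      h5.trans (mul_le_mul_of_nonneg_left hjnr (by positivity))
    have h7 : c * (2 * E) * (Q : ℝ) ^ J ≤ N := by
      have h8 : (J * g : ℝ) * (c * (2 * E) * (Q : ℝ) ^ J) ≤ (J * g) * N := by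
        calc (J * g : ℝ) * (c * (2 * E) * (Q : ℝ) ^ J) = c * (2 * J * E * g * (Q : ℝ) ^ J) := by ring
          _ ≤ J * (N * g) := h6
          _ = _ := by ring
      exact le_of_mul_le_mul_left h8 (by positivity)
    rw [one_div, inv_pow, le_div_iff₀ (by positivity), ← div_eq_mul_inv, le_div_iff₀ hQj0]
    by_cases hc : 0 ≤ c
    · exact (mul_le_mul_of_nonneg_left hQj (by positivity)).trans h7
    · have h9 : c * (2 * E) * (Q : ℝ) ^ j ≤ 0 := by
        rw [not_le] at hc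
        have : c * (2 * E) ≤ 0 := by nlinarith
        exact mul_nonpos_of_nonpos_of_nonneg this hQj0.le
      exact h9.trans (Nat.cast_nonneg N)
  have hS : ∑ i ∈ univ.filter (fun i => (t i).card ≠ j), (2 / (Q : ℝ)) ^ (t i).card ≤
      N * (1 / Q) ^ j / E := by
    have h20 : (0 : ℝ) ≤ 2 / Q := by positivity
    have h21 : 2 / (Q : ℝ) ≤ 1 := by rw [div_le_one hQ0]; linarith
    have h1 : ∀ i ∈ univ.filter (fun i => (t i).card ≠ j), (2 / (Q : ℝ)) ^ (t i).card ≤
        (if (t i).card < j then 1 else 0) + (2 / (Q : ℝ)) ^ (j + 1) := by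
      intro i hi
      have hi' := (mem_filter.1 hi).2
      by_cases h : (t i).card < j
      · rw [if_pos h]
        have := pow_le_one₀ h20 h21 (n := (t i).card)
        have : (0 : ℝ) ≤ (2 / (Q : ℝ)) ^ (j + 1) := by positivity
        linarith
      · rw [if_neg h, zero_add]
        exact pow_le_pow_of_le_one h20 h21 (by omega)
    refine (sum_le_sum h1).trans ?_
    rw [sum_add_distrib]
    have h2 : ∑ i ∈ univ.filter (fun i => (t i).card ≠ j), (if (t i).card < j then (1 : ℝ) else 0) ≤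
        N * (1 / Q) ^ j / (2 * E) := by
      refine le_trans ?_ hlow
      refine (sum_le_sum_of_subset_of_nonneg (filter_subset _ _) fun i _ _ => ?_).trans ?_
      · split_ifs <;> norm_num
      · rw [card_filter]
        push_cast
        exact le_rfl
    have h3 : ∑ i ∈ univ.filter (fun i => (t i).card ≠ j), (2 / (Q : ℝ)) ^ (j + 1) ≤
        N * (1 / Q) ^ j / (2 * E) := by
      rw [sum_const, nsmul_eq_mul]
      have h4 : ((univ.filter (fun i => (t i).card ≠ j)).card : ℝ) ≤ N * g := by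
        refine le_trans ?_ hjnr
        have : (univ.filter (fun i => (t i).card ≠ j)).card ≤ n :=
          (card_le_univ _).trans (by rw [Fintype.card_fin])
        exact_mod_cast this
      refine (mul_le_mul_of_nonneg_right h4 (by positivity)).trans ?_
      have h5 : (Q : ℝ) = g * 2 ^ (J + 2) * E := by exact_mod_cast hQg
      have h6 : (2 : ℝ) ^ (j + 1) * 2 ≤ 2 ^ (J + 2) := by
        rw [← pow_succ]
        exact pow_le_pow_right₀ (by norm_num) (by omega)
      rw [div_pow, one_div, inv_pow, ← div_eq_mul_inv, pow_succ (Q : ℝ) j, div_div, mul_div_assoc',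
        div_le_div_iff₀ (by positivity) (by positivity)]
      calc N * g * 2 ^ (j + 1) * ((Q : ℝ) ^ j * (2 * E))
          = N * (Q : ℝ) ^ j * g * E * (2 ^ (j + 1) * 2) := by ring
        _ ≤ N * (Q : ℝ) ^ j * g * E * 2 ^ (J + 2) := by
          refine mul_le_mul_of_nonneg_left h6 (by positivity)
        _ = N * ((Q : ℝ) ^ j * (g * 2 ^ (J + 2) * E)) := by ring
        _ = N * ((Q : ℝ) ^ j * Q) := by rw [← h5]
    calc _ ≤ N * (1 / (Q : ℝ)) ^ j / (2 * E) + N * (1 / (Q : ℝ)) ^ j / (2 * E) := add_le_add h2 h3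
      _ = _ := by
        field_simp
        ring
  -- the sampling rate
  obtain ⟨φ, hφ⟩ : ∃ φ : ℝ, φ = N * (1 / (Q : ℝ)) ^ j := ⟨_, rfl⟩
  obtain ⟨Θ, hΘ⟩ : ∃ Θ : ℕ, Θ = ⌊φ * D / n⌋₊ := ⟨_, rfl⟩
  have hN0 : (0 : ℝ) < N := by
    rcases Nat.eq_zero_or_pos N with h | h
    · rw [h, Nat.cast_zero, zero_mul] at hjnr
      linarith
    · exact_mod_cast h
  have hφ0 : 0 < φ := by
    rw [hφ]
    positivity
  have hφD : (n : ℝ) ≤ φ * D := by
    have h1 : (g : ℝ) * (Q : ℝ) ^ j ≤ D := by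
      refine le_trans ?_ hGDr
      have h2 : (1 : ℝ) ≤ 2 * J * E := by nlinarith
      calc (g : ℝ) * (Q : ℝ) ^ j ≤ g * (Q : ℝ) ^ J := mul_le_mul_of_nonneg_left hQj (by linarith)
        _ = 1 * (g * (Q : ℝ) ^ J) := by ring
        _ ≤ (2 * J * E) * (g * (Q : ℝ) ^ J) := mul_le_mul_of_nonneg_right h2 (by positivity)
        _ = _ := by ring
    calc (n : ℝ) ≤ N * g := hjnr
      _ = φ * (g * (Q : ℝ) ^ j) := by
        rw [hφ, one_div, inv_pow]
        field_simp
      _ ≤ φ * D := mul_le_mul_of_nonneg_left h1 hφ0.le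
  have hΘ1 : 1 ≤ Θ := by
    rw [hΘ]
    refine Nat.le_floor ?_
    rw [Nat.cast_one, le_div_iff₀ hnr, one_mul]
    exact hφD
  have hΘr : (1 : ℝ) ≤ Θ := by exact_mod_cast hΘ1
  have hΘa : (Θ : ℝ) * n ≤ φ * D := by
    have := Nat.floor_le (a := φ * D / n) (by positivity)
    rw [← hΘ, le_div_iff₀ hnr] at this
    exact this
  have hΘb : φ * D < 2 * Θ * n := by
    have := Nat.lt_floor_add_one (φ * D / n)
    rw [← hΘ, div_lt_iff₀ hnr] at this
    nlinarith
  have hφn : φ ≤ n := by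
    rw [hφ]
    have h1 : (1 / (Q : ℝ)) ^ j ≤ 1 :=
      pow_le_one₀ (by positivity) (by rw [div_le_one hQ0]; linarith)
    calc N * (1 / (Q : ℝ)) ^ j ≤ N * 1 := mul_le_mul_of_nonneg_left h1 hN0.le
      _ ≤ n := by rw [mul_one]; exact hNnr
  have hΘD : Θ ≤ D := by
    have h1 : (Θ : ℝ) * n ≤ D * n := hΘa.trans (by nlinarith)
    have h2 : (Θ : ℝ) ≤ D := le_of_mul_le_mul_right h1 hnr
    exact_mod_cast h2
  obtain ⟨μ, hμ⟩ : ∃ μ : ℝ, μ = φ / Θ := ⟨_, rfl⟩
  have hΘ0 : (0 : ℝ) < Θ := by linarith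
  have hμ0 : 0 < μ := by rw [hμ]; positivity
  have hμa : (n : ℝ) ≤ D * μ := by
    rw [hμ, mul_div_assoc', le_div_iff₀ hΘ0]
    linarith
  have hμb : D * μ ≤ 2 * n := by
    rw [hμ, mul_div_assoc', div_le_iff₀ hΘ0]
    linarith
  have hμ64 : 64 * ((J * ℓ + 1 : ℕ) : ℝ) ≤ μ := by
    have h1 : 64 * (D : ℝ) * ((J * ℓ + 1 : ℕ) : ℝ) ≤ D * μ := by
      refine le_trans ?_ hμa
      rw [← hD, ← hJ] at hn
      exact_mod_cast hn
    have h2 : (D : ℝ) * (64 * ((J * ℓ + 1 : ℕ) : ℝ)) ≤ D * μ := by linarith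
    exact le_of_mul_le_mul_left h2 (by linarith)
  refine ⟨j, Θ, hj1, by omega, hΘ1, by rw [← hD]; exact hΘD, ?_⟩
  rw [← hJ, ← hQ, show gam J E J = D by rw [hD, hJ]]
  obtain ⟨T, hT⟩ : ∃ T : ℝ, T = (Q : ℝ) ^ r * (Θ : ℝ) ^ n := ⟨_, rfl⟩
  have hT0 : 0 ≤ T := by rw [hT]; positivity
  have hcT : (Fintype.card (Om r n Q Θ) : ℝ) = T := by rw [hT]; exact card_om r n Q Θ
  have hQpos : 0 < Q := by omega
  have hΘpos : 0 < Θ := hΘ1
  -- the label sets
  obtain ⟨Lc, hLc⟩ : ∃ Lc : ℕ → Finset (Fin Q), Lc = fun c => univ.filter fun x : Fin Q => (x : ℕ) = c :=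
    ⟨_, rfl⟩
  have hLc1 : ∀ c < Q, (Lc c).card = 1 := by
    intro c hc
    rw [hLc, card_eq_one]
    refine ⟨⟨c, hc⟩, ?_⟩
    ext x
    simp [Fin.ext_iff]
  obtain ⟨I, hI⟩ : ∃ I : Finset (Fin n), I = univ.filter fun i => (t i).card = j := ⟨_, rfl⟩
  have hIc : I.card = N := by rw [hI, hN]; rfl
  have hIj : ∀ i ∈ I, (t i).card = j := by
    intro i hi
    rw [hI] at hi
    exact (mem_filter.1 hi).2
  obtain ⟨X, hX⟩ : ∃ X : ℕ → Om r n Q Θ → ℝ, X = fun c ω =>
      ((I.filter fun i => (ω.2 i : ℕ) = 0 ∧ ∀ s ∈ t i, ω.1 s ∈ Lc c).card : ℝ) := ⟨_, rfl⟩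
  have hbad : ∀ c < Q, ((univ.filter fun ω => X c ω < μ / 2).card : ℝ) ≤ T / 16 := by
    intro c hc
    have m1 := mom1 (r := r) (n := n) hQpos hΘpos t (Lc c) I
    have m2 := mom2 hQpos hΘpos t (Lc c) (hLc1 c hc) I hIj hℓ
    rw [hLc1 c hc, Nat.cast_one, ← hT] at m1
    rw [← hT, hIc] at m2
    have e1 : ∑ i ∈ I, (1 / (Q : ℝ)) ^ (t i).card * (1 / (Θ : ℝ)) = μ := by
      rw [sum_congr rfl (fun i hi => by rw [hIj i hi]), sum_const, hIc, nsmul_eq_mul, hμ, hφ]
      ring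
    rw [e1] at m1
    have e2 : (N : ℝ) * (1 / (Q : ℝ)) ^ j / Θ = μ := by rw [hμ, hφ]
    rw [e2] at m2
    have c1 := cheb (X c) (T := T) (μ := μ) (V := μ * (((j * ℓ : ℕ) : ℝ) + 1)) hcT
      (by rw [hX]; exact m1) (by rw [hX]; exact m2) hμ0.le
    generalize ((univ.filter fun ω => X c ω < μ / 2).card : ℝ) = b at c1 ⊢
    have h1 : b * μ ≤ 4 * T * (((j * ℓ : ℕ) : ℝ) + 1) := by
      have h2 : μ * (b * μ) ≤ μ * (4 * T * (((j * ℓ : ℕ) : ℝ) + 1)) := by linarith
      exact le_of_mul_le_mul_left h2 hμ0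
    have h3 : (((j * ℓ : ℕ) : ℝ) + 1) ≤ ((J * ℓ + 1 : ℕ) : ℝ) := by
      have : j * ℓ + 1 ≤ J * ℓ + 1 := by
        have := Nat.mul_le_mul_right ℓ hjJ
        omega
      exact_mod_cast this
    have h4 : b * μ ≤ (T / 16) * μ := by
      calc b * μ ≤ 4 * T * (((j * ℓ : ℕ) : ℝ) + 1) := h1
        _ ≤ 4 * T * ((J * ℓ + 1 : ℕ) : ℝ) := mul_le_mul_of_nonneg_left h3 (by positivity)
        _ = (T / 16) * (64 * ((J * ℓ + 1 : ℕ) : ℝ)) := by ring
        _ ≤ (T / 16) * μ := mul_le_mul_of_nonneg_left hμ64 (by positivity)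
    exact le_of_mul_le_mul_right h4 hμ0
  -- the other sets
  obtain ⟨I', hI'⟩ : ∃ I' : Finset (Fin n), I' = univ.filter fun i => (t i).card ≠ j := ⟨_, rfl⟩
  obtain ⟨L2, hL2⟩ : ∃ L2 : Finset (Fin Q), L2 = Lc 0 ∪ Lc 1 := ⟨_, rfl⟩
  have hL2c : (L2.card : ℝ) ≤ 2 := by
    have : L2.card ≤ 2 := by
      rw [hL2]
      refine (card_union_le _ _).trans ?_
      rw [hLc1 0 (by omega), hLc1 1 (by omega)]
    exact_mod_cast this
  obtain ⟨Y, hY⟩ : ∃ Y : Om r n Q Θ → ℝ, Y = fun ω =>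
      ((I'.filter fun i => (ω.2 i : ℕ) = 0 ∧ ∀ s ∈ t i, ω.1 s ∈ L2).card : ℝ) := ⟨_, rfl⟩
  have hbadY : ((univ.filter fun ω => 16 * n / (E * D) < Y ω).card : ℝ) ≤ T / 8 := by
    have m1 := mom1 (r := r) (n := n) hQpos hΘpos t L2 I'
    rw [← hT] at m1
    have h1 : ∑ ω, Y ω ≤ T * (2 * n / (E * D)) := by
      rw [hY, m1]
      refine mul_le_mul_of_nonneg_left ?_ hT0
      rw [← sum_mul]
      have h2 : ∑ i ∈ I', ((L2.card : ℝ) / Q) ^ (t i).card ≤ φ / E := by
        rw [hφ]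
        refine le_trans (sum_le_sum fun i _ => ?_) (hI' ▸ hS)
        exact pow_le_pow_left₀ (by positivity) (by gcongr) _
      refine (mul_le_mul_of_nonneg_right h2 (by positivity)).trans ?_
      rw [le_div_iff₀ (by positivity)]
      calc φ / E * (1 / Θ) * (E * D) = D * μ := by
            rw [hμ]
            field_simp
        _ ≤ 2 * n := hμb
    have c1 := markov Y (a := 16 * n / (E * D)) (fun ω => by rw [hY]; positivity) h1
    generalize ((univ.filter fun ω => 16 * n / (E * D) < Y ω).card : ℝ) = b at c1 ⊢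
    have h3 : (0 : ℝ) < 16 * n / (E * D) := by positivity
    have h4 : b * (16 * n / (E * D)) ≤ (T / 8) * (16 * n / (E * D)) := by
      refine c1.trans (le_of_eq ?_)
      ring
    exact le_of_mul_le_mul_right h4 h3
  -- conclusion
  have hcov : (univ : Finset (Om r n Q Θ)) ⊆
      (((univ.filter fun Fh : Om r n Q Θ => Good D E j t Fh.1 Fh.2) ∪
        (univ.filter fun ω => X 0 ω < μ / 2)) ∪ (univ.filter fun ω => X 1 ω < μ / 2)) ∪
        (univ.filter fun ω => 16 * n / (E * D) < Y ω) := by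
    intro ω _
    rw [mem_union, mem_union, mem_union, mem_filter, mem_filter, mem_filter, mem_filter]
    by_cases a1 : X 0 ω < μ / 2
    · exact Or.inl (Or.inl (Or.inr ⟨mem_univ _, a1⟩))
    by_cases a2 : X 1 ω < μ / 2
    · exact Or.inl (Or.inr ⟨mem_univ _, a2⟩)
    by_cases a3 : 16 * n / (E * D) < Y ω
    · exact Or.inr ⟨mem_univ _, a3⟩
    refine Or.inl (Or.inl (Or.inl ⟨mem_univ _, ?_, ?_, ?_⟩))
    · have h1 : X 0 ω ≤ ((univ.filter fun i => (ω.2 i : ℕ) = 0 ∧ ∀ s ∈ t i, (ω.1 s : ℕ) = 0).card : ℝ) := by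
        rw [hX]
        beta_reduce
        have : (I.filter fun i => (ω.2 i : ℕ) = 0 ∧ ∀ s ∈ t i, ω.1 s ∈ Lc 0).card ≤
            (univ.filter fun i => (ω.2 i : ℕ) = 0 ∧ ∀ s ∈ t i, (ω.1 s : ℕ) = 0).card := by
          refine card_le_card fun i hi => ?_
          obtain ⟨-, b1, b2⟩ := mem_filter.1 hi
          refine mem_filter.2 ⟨mem_univ _, b1, fun s hs => ?_⟩
          have := b2 s hs
          rw [hLc] at this
          exact (mem_filter.1 this).2
        exact_mod_cast this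
      rw [not_lt] at a1
      have h2 : (n : ℝ) ≤ 2 * D *
          ((univ.filter fun i => (ω.2 i : ℕ) = 0 ∧ ∀ s ∈ t i, (ω.1 s : ℕ) = 0).card : ℝ) := by
        have h3 := a1.trans h1
        have h4 := mul_le_mul_of_nonneg_left h3 (show (0 : ℝ) ≤ 2 * D by positivity)
        linarith
      exact_mod_cast h2
    · have h1 : X 1 ω ≤ ((univ.filter fun i => (ω.2 i : ℕ) = 0 ∧ ∀ s ∈ t i, (ω.1 s : ℕ) = 1).card : ℝ) := by
        rw [hX]
        beta_reduce
        have : (I.filter fun i => (ω.2 i : ℕ) = 0 ∧ ∀ s ∈ t i, ω.1 s ∈ Lc 1).card ≤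
            (univ.filter fun i => (ω.2 i : ℕ) = 0 ∧ ∀ s ∈ t i, (ω.1 s : ℕ) = 1).card := by
          refine card_le_card fun i hi => ?_
          obtain ⟨-, b1, b2⟩ := mem_filter.1 hi
          refine mem_filter.2 ⟨mem_univ _, b1, fun s hs => ?_⟩
          have := b2 s hs
          rw [hLc] at this
          exact (mem_filter.1 this).2
        exact_mod_cast this
      rw [not_lt] at a2
      have h2 : (n : ℝ) ≤ 2 * D *
          ((univ.filter fun i => (ω.2 i : ℕ) = 0 ∧ ∀ s ∈ t i, (ω.1 s : ℕ) = 1).card : ℝ) := by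
        have h3 := a2.trans h1
        have h4 := mul_le_mul_of_nonneg_left h3 (show (0 : ℝ) ≤ 2 * D by positivity)
        linarith
      exact_mod_cast h2
    · have h1 : ((univ.filter fun i => (ω.2 i : ℕ) = 0 ∧ (t i).card ≠ j ∧
          ∀ s ∈ t i, (ω.1 s : ℕ) = 0 ∨ (ω.1 s : ℕ) = 1).card : ℝ) ≤ Y ω := by
        rw [hY]
        beta_reduce
        have : (univ.filter fun i => (ω.2 i : ℕ) = 0 ∧ (t i).card ≠ j ∧
            ∀ s ∈ t i, (ω.1 s : ℕ) = 0 ∨ (ω.1 s : ℕ) = 1).card ≤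
            (I'.filter fun i => (ω.2 i : ℕ) = 0 ∧ ∀ s ∈ t i, ω.1 s ∈ L2).card := by
          refine card_le_card fun i hi => ?_
          obtain ⟨-, b1, b2, b3⟩ := mem_filter.1 hi
          refine mem_filter.2 ⟨?_, b1, fun s hs => ?_⟩
          · rw [hI']
            exact mem_filter.2 ⟨mem_univ _, b2⟩
          · rw [hL2, hLc, mem_union, mem_filter, mem_filter]
            rcases b3 s hs with h | h
            · exact Or.inl ⟨mem_univ _, h⟩
            · exact Or.inr ⟨mem_univ _, h⟩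
        exact_mod_cast this
      rw [not_lt] at a3
      have h2 := h1.trans a3
      rw [le_div_iff₀ (by positivity)] at h2
      have h3 : (E : ℝ) * D * ((univ.filter fun i => (ω.2 i : ℕ) = 0 ∧ (t i).card ≠ j ∧
          ∀ s ∈ t i, (ω.1 s : ℕ) = 0 ∨ (ω.1 s : ℕ) = 1).card : ℝ) ≤ 16 * n := by linarith
      exact_mod_cast h3
  have hc := (card_le_card hcov).trans ((card_union_le _ _).trans (Nat.add_le_add_right
    ((card_union_le _ _).trans (Nat.add_le_add_right (card_union_le _ _) _)) _))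
  rw [card_univ] at hc
  have hc' : (Fintype.card (Om r n Q Θ) : ℝ) ≤
      (((univ.filter fun Fh : Om r n Q Θ => Good D E j t Fh.1 Fh.2).card : ℝ) +
        ((univ.filter fun ω => X 0 ω < μ / 2).card : ℝ)) +
        ((univ.filter fun ω => X 1 ω < μ / 2).card : ℝ) +
        ((univ.filter fun ω => 16 * n / (E * D) < Y ω).card : ℝ) := by exact_mod_cast hc
  rw [hcT] at hc'
  have b0 := hbad 0 (by omega)
  have b1 := hbad 1 (by omega)
  have hfin : T ≤ 2 * ((univ.filter fun Fh : Om r n Q Θ => Good D E j t Fh.1 Fh.2).card : ℝ) := by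
    linarith
  rw [hT] at hfin
  exact_mod_cast hfin

end Pool.Agent.L0h51.LT
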