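import Pool.Agent.L0h32.LT.Stm

/-!
# Counting labellings, second moments (for part SEL of project LT)
-/

set_option autoImplicit false
set_option linter.all false

open Finset
open scoped Classical

namespace Pool.Agent.L0h51.LT

theorem cntL {α : Type} [Fintype α] (Q : ℕ) (hQ : 0 < Q) (A : Finset α) (L : Finset (Fin Q)) :
    ((univ.filter fun F : α → Fin Q => ∀ s ∈ A, F s ∈ L).card : ℝ) =
      (Q : ℝ) ^ Fintype.card α * ((L.card : ℝ) / Q) ^ A.card := by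
  have h1 : (univ.filter fun F : α → Fin Q => ∀ s ∈ A, F s ∈ L) =
      Fintype.piFinset fun s => if s ∈ A then L else univ := by
    ext F
    simp only [mem_filter, mem_univ, true_and, Fintype.mem_piFinset]
    constructor
    · intro h s
      by_cases hs : s ∈ A
      · rw [if_pos hs]
        exact h s hs
      · rw [if_neg hs]
        exact mem_univ _
    · intro h s hs
      have := h s
      rwa [if_pos hs] at this
  have hQ' : (Q : ℝ) ≠ 0 := by exact_mod_cast hQ.ne'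
  rw [h1, Fintype.card_piFinset, Nat.cast_prod]
  have h2 : ∀ s ∈ (univ : Finset α), (((if s ∈ A then L else univ : Finset (Fin Q)).card : ℕ) : ℝ) =
      (Q : ℝ) * (if s ∈ A then (L.card : ℝ) / Q else 1) := by
    intro s _
    by_cases hs : s ∈ A
    · rw [if_pos hs, if_pos hs]
      field_simp
    · rw [if_neg hs, if_neg hs, card_univ, Fintype.card_fin, mul_one]
  rw [prod_congr rfl h2, prod_mul_distrib, prod_const, card_univ]
  congr 1
  rw [← prod_const, ← prod_filter]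
  congr 1
  ext s
  simp

/-- The labellings. -/
abbrev Om (r n Q Θ : ℕ) : Type := (Fin r → Fin Q) × (Fin n → Fin Θ)

theorem card_om (r n Q Θ : ℕ) : (Fintype.card (Om r n Q Θ) : ℝ) = (Q : ℝ) ^ r * (Θ : ℝ) ^ n := by
  rw [Fintype.card_prod, Fintype.card_fun, Fintype.card_fun, Fintype.card_fin, Fintype.card_fin,
    Fintype.card_fin, Fintype.card_fin]
  push_cast
  rfl

theorem cntP {r n Q Θ : ℕ} (hQ : 0 < Q) (hΘ : 0 < Θ) (A : Finset (Fin r)) (L : Finset (Fin Q))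
    (B : Finset (Fin n)) :
    ((univ.filter fun ω : Om r n Q Θ => (∀ i ∈ B, (ω.2 i : ℕ) = 0) ∧ ∀ s ∈ A, ω.1 s ∈ L).card : ℝ) =
      ((Q : ℝ) ^ r * (Θ : ℝ) ^ n) * (((L.card : ℝ) / Q) ^ A.card * (1 / (Θ : ℝ)) ^ B.card) := by
  have h1 : (univ.filter fun ω : Om r n Q Θ => (∀ i ∈ B, (ω.2 i : ℕ) = 0) ∧ ∀ s ∈ A, ω.1 s ∈ L) =
      (univ.filter fun F : Fin r → Fin Q => ∀ s ∈ A, F s ∈ L) ×ˢ
        (univ.filter fun h : Fin n → Fin Θ => ∀ i ∈ B, h i ∈ ({⟨0, hΘ⟩} : Finset (Fin Θ))) := by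
    ext ω
    simp only [mem_filter, mem_univ, true_and, mem_product, mem_singleton, Fin.ext_iff]
    tauto
  have c1 : ((univ.filter fun F : Fin r → Fin Q => ∀ s ∈ A, F s ∈ L).card : ℝ) =
      (Q : ℝ) ^ r * ((L.card : ℝ) / Q) ^ A.card := by
    have := cntL (α := Fin r) Q hQ A L
    rw [Fintype.card_fin] at this
    refine Eq.trans ?_ this
    congr
    exact Subsingleton.elim _ _
  have c2 : ((univ.filter fun h : Fin n → Fin Θ => ∀ i ∈ B, h i ∈ ({⟨0, hΘ⟩} : Finset (Fin Θ))).card : ℝ) =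
      (Θ : ℝ) ^ n * (1 / (Θ : ℝ)) ^ B.card := by
    have := cntL (α := Fin n) Θ hΘ B {⟨0, hΘ⟩}
    rw [Fintype.card_fin, card_singleton, Nat.cast_one] at this
    refine Eq.trans ?_ this
    congr
    exact Subsingleton.elim _ _
  rw [h1, card_product, Nat.cast_mul, c1, c2]
  ring

theorem cheb {Ω : Type} [Fintype Ω] (X : Ω → ℝ) {T μ V : ℝ} (hT : (Fintype.card Ω : ℝ) = T)
    (h1 : ∑ ω, X ω = T * μ) (h2 : ∑ ω, X ω ^ 2 ≤ T * (μ ^ 2 + V)) (hμ : 0 ≤ μ) :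
    ((univ.filter fun ω => X ω < μ / 2).card : ℝ) * μ ^ 2 ≤ 4 * (T * V) := by
  have h3 : ∑ ω, (X ω - μ) ^ 2 ≤ T * V := by
    have e : ∑ ω, (X ω - μ) ^ 2 = ∑ ω, X ω ^ 2 - 2 * μ * ∑ ω, X ω + T * μ ^ 2 := by
      have e1 : ∀ ω ∈ (univ : Finset Ω), (X ω - μ) ^ 2 = X ω ^ 2 - 2 * μ * X ω + μ ^ 2 :=
        fun ω _ => by ring
      rw [sum_congr rfl e1, sum_add_distrib, sum_sub_distrib, ← mul_sum, sum_const, card_univ,
        nsmul_eq_mul, hT]
    rw [e, h1]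
    nlinarith
  have h4 : ((univ.filter fun ω => X ω < μ / 2).card : ℝ) * (μ / 2) ^ 2 ≤ ∑ ω, (X ω - μ) ^ 2 := by
    rw [← nsmul_eq_mul, ← sum_const]
    refine (sum_le_sum fun ω hω => ?_).trans
      (sum_le_sum_of_subset_of_nonneg (filter_subset _ _) fun ω _ _ => sq_nonneg _)
    have h5 : X ω < μ / 2 := (mem_filter.1 hω).2
    nlinarith
  nlinarith

theorem markov {Ω : Type} [Fintype Ω] (Y : Ω → ℝ) {a b : ℝ} (h0 : ∀ ω, 0 ≤ Y ω)
    (h1 : ∑ ω, Y ω ≤ b) : ((univ.filter fun ω => a < Y ω).card : ℝ) * a ≤ b := by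
  refine le_trans ?_ h1
  rw [← nsmul_eq_mul, ← sum_const]
  refine (sum_le_sum fun ω hω => ?_).trans
    (sum_le_sum_of_subset_of_nonneg (filter_subset _ _) fun ω _ _ => h0 ω)
  exact (mem_filter.1 hω).2.le

/-- First moment. -/
theorem mom1 {r n Q Θ : ℕ} (hQ : 0 < Q) (hΘ : 0 < Θ) (t : Fin n → Finset (Fin r))
    (L : Finset (Fin Q)) (I : Finset (Fin n)) :
    ∑ ω : Om r n Q Θ, ((I.filter fun i => (ω.2 i : ℕ) = 0 ∧ ∀ s ∈ t i, ω.1 s ∈ L).card : ℝ) =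
      ((Q : ℝ) ^ r * (Θ : ℝ) ^ n) * ∑ i ∈ I, ((L.card : ℝ) / Q) ^ (t i).card * (1 / (Θ : ℝ)) := by
  have h1 : ∀ ω ∈ (univ : Finset (Om r n Q Θ)),
      ((I.filter fun i => (ω.2 i : ℕ) = 0 ∧ ∀ s ∈ t i, ω.1 s ∈ L).card : ℝ) =
      ∑ i ∈ I, if (ω.2 i : ℕ) = 0 ∧ ∀ s ∈ t i, ω.1 s ∈ L then (1 : ℝ) else 0 := by
    intro ω _
    rw [card_filter]
    push_cast
    rfl
  rw [sum_congr rfl h1, sum_comm, mul_sum]
  refine sum_congr rfl fun i _ => ?_
  have h2 := cntP (r := r) (n := n) (Q := Q) (Θ := Θ) hQ hΘ (t i) L {i}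
  rw [card_singleton, pow_one] at h2
  rw [← h2, card_filter]
  push_cast
  refine sum_congr rfl fun ω _ => ?_
  simp

/-- Second moment, sets of size `j`. -/
theorem mom2 {r n Q Θ : ℕ} (hQ : 0 < Q) (hΘ : 0 < Θ) (t : Fin n → Finset (Fin r))
    (L : Finset (Fin Q)) (hL : L.card = 1) (I : Finset (Fin n)) {j ℓ : ℕ}
    (hI : ∀ i ∈ I, (t i).card = j) (hℓ : ∀ s, (univ.filter fun i => s ∈ t i).card ≤ ℓ) :
    ∑ ω : Om r n Q Θ, ((I.filter fun i => (ω.2 i : ℕ) = 0 ∧ ∀ s ∈ t i, ω.1 s ∈ L).card : ℝ) ^ 2 ≤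
      ((Q : ℝ) ^ r * (Θ : ℝ) ^ n) * (((I.card : ℝ) * (1 / (Q : ℝ)) ^ j / Θ) ^ 2 +
        ((I.card : ℝ) * (1 / (Q : ℝ)) ^ j / Θ) * ((j * ℓ : ℕ) + 1)) := by
  obtain ⟨T, hT⟩ : ∃ T : ℝ, T = (Q : ℝ) ^ r * (Θ : ℝ) ^ n := ⟨_, rfl⟩
  have hQ1 : (1 : ℝ) ≤ Q := by exact_mod_cast hQ
  have hΘ1 : (1 : ℝ) ≤ Θ := by exact_mod_cast hΘ
  have hT0 : 0 ≤ T := by rw [hT]; positivity
  obtain ⟨a, ha⟩ : ∃ a : ℝ, a = (1 / (Q : ℝ)) ^ j := ⟨_, rfl⟩
  obtain ⟨θ, hθ⟩ : ∃ θ : ℝ, θ = 1 / (Θ : ℝ) := ⟨_, rfl⟩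
  have ha0 : 0 ≤ a := by rw [ha]; positivity
  have hθ0 : 0 ≤ θ := by rw [hθ]; positivity
  have hθ1 : θ ≤ 1 := by
    rw [hθ, div_le_one (by linarith)]
    exact hΘ1
  have hq1 : 1 / (Q : ℝ) ≤ 1 := by
    rw [div_le_one (by linarith)]
    exact hQ1
  have hq0 : 0 ≤ 1 / (Q : ℝ) := by positivity
  have h1 : ∀ ω ∈ (univ : Finset (Om r n Q Θ)),
      ((I.filter fun i => (ω.2 i : ℕ) = 0 ∧ ∀ s ∈ t i, ω.1 s ∈ L).card : ℝ) ^ 2 =
      ∑ i ∈ I, ∑ i' ∈ I, if (∀ x ∈ ({i, i'} : Finset (Fin n)), (ω.2 x : ℕ) = 0) ∧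
        ∀ s ∈ t i ∪ t i', ω.1 s ∈ L then (1 : ℝ) else 0 := by
    intro ω _
    rw [card_filter]
    push_cast
    rw [pow_two, sum_mul_sum]
    refine sum_congr rfl fun i _ => sum_congr rfl fun i' _ => ?_
    rw [ite_zero_mul_ite_zero]
    simp only [mul_one]
    congr 1
    simp only [mem_insert, mem_singleton, forall_eq_or_imp, forall_eq, mem_union, eq_iff_iff]
    constructor
    · rintro ⟨⟨b1, b2⟩, b3, b4⟩
      exact ⟨⟨b1, b3⟩, fun s hs => hs.elim (b2 s) (b4 s)⟩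
    · rintro ⟨⟨b1, b3⟩, b2⟩
      exact ⟨⟨b1, fun s hs => b2 s (Or.inl hs)⟩, b3, fun s hs => b2 s (Or.inr hs)⟩
  rw [sum_congr rfl h1, sum_comm]
  have h2 : ∀ i ∈ I, ∀ i' ∈ I, ∑ ω : Om r n Q Θ, (if (∀ x ∈ ({i, i'} : Finset (Fin n)), (ω.2 x : ℕ) = 0) ∧
        ∀ s ∈ t i ∪ t i', ω.1 s ∈ L then (1 : ℝ) else 0) ≤
      T * ((if i' = i then a * θ else 0) + a ^ 2 * θ ^ 2 +
        if (∃ s ∈ t i, s ∈ t i') then a * θ else 0) := by
    intro i hi i' hi'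
    have h3 := cntP (r := r) (n := n) (Q := Q) (Θ := Θ) hQ hΘ (t i ∪ t i') L {i, i'}
    rw [hL, Nat.cast_one, ← hT, ← hθ, card_filter] at h3
    push_cast at h3
    rw [h3]
    refine mul_le_mul_of_nonneg_left ?_ hT0
    have hj1 : j ≤ (t i ∪ t i').card := by
      rw [← hI i hi]
      exact card_le_card subset_union_left
    have hle : (1 / (Q : ℝ)) ^ (t i ∪ t i').card ≤ a := by
      rw [ha]
      exact pow_le_pow_of_le_one hq0 hq1 hj1
    have hpos : 0 ≤ (1 / (Q : ℝ)) ^ (t i ∪ t i').card := by positivity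
    have c0 : 0 ≤ (if (∃ s ∈ t i, s ∈ t i') then a * θ else 0) := by
      split_ifs
      · positivity
      · exact le_rfl
    by_cases e : i' = i
    · subst e
      rw [if_pos rfl, pair_eq_singleton, card_singleton, pow_one]
      have : (1 / (Q : ℝ)) ^ (t i' ∪ t i').card * θ ≤ a * θ := mul_le_mul_of_nonneg_right hle hθ0
      have : 0 ≤ a ^ 2 * θ ^ 2 := by positivity
      linarith
    · rw [if_neg e, zero_add, card_pair (Ne.symm e)]
      by_cases hd : ∃ s ∈ t i, s ∈ t i'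
      · rw [if_pos hd]
        have c1 : (1 / (Q : ℝ)) ^ (t i ∪ t i').card * θ ^ 2 ≤ a * θ := by
          refine mul_le_mul hle ?_ (by positivity) ha0
          nlinarith
        have : 0 ≤ a ^ 2 * θ ^ 2 := by positivity
        linarith
      · rw [if_neg hd, add_zero]
        have hdis : Disjoint (t i) (t i') := by
          rw [disjoint_left]
          exact fun s hs hs' => hd ⟨s, hs, hs'⟩
        rw [card_union_of_disjoint hdis, hI i hi, hI i' hi', pow_add, ← ha, pow_two a]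
  have h4 : ∀ i ∈ I, ∑ ω : Om r n Q Θ, ∑ i' ∈ I, (if (∀ x ∈ ({i, i'} : Finset (Fin n)), (ω.2 x : ℕ) = 0) ∧
        ∀ s ∈ t i ∪ t i', ω.1 s ∈ L then (1 : ℝ) else 0) ≤
      T * (a * θ + I.card * (a ^ 2 * θ ^ 2) + ((j * ℓ : ℕ) : ℝ) * (a * θ)) := by
    intro i hi
    rw [sum_comm]
    refine (sum_le_sum fun i' hi' => h2 i hi i' hi').trans ?_
    rw [← mul_sum]
    refine mul_le_mul_of_nonneg_left ?_ hT0
    rw [sum_add_distrib, sum_add_distrib, sum_ite_eq' I i, if_pos hi, sum_const, nsmul_eq_mul]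
    gcongr
    rw [← sum_filter, sum_const, nsmul_eq_mul]
    refine mul_le_mul_of_nonneg_right ?_ (by positivity)
    have h5 : (I.filter fun i' => ∃ s ∈ t i, s ∈ t i') ⊆
        (t i).biUnion fun s => univ.filter fun i' => s ∈ t i' := by
      intro i' hi'
      obtain ⟨s, hs, hs'⟩ := (mem_filter.1 hi').2
      exact mem_biUnion.2 ⟨s, hs, mem_filter.2 ⟨mem_univ _, hs'⟩⟩
    have h6 := (card_le_card h5).trans (card_biUnion_le_card_mul _ _ ℓ fun s _ => hℓ s)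
    rw [hI i hi] at h6
    exact_mod_cast h6
  refine (sum_le_sum h4).trans ?_
  rw [sum_const, nsmul_eq_mul, ← hT]
  have e1 : (I.card : ℝ) * (1 / (Q : ℝ)) ^ j / Θ = I.card * a * θ := by
    rw [ha, hθ]
    ring
  rw [e1]
  refine le_of_eq ?_
  ring

end Pool.Agent.L0h51.LT
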